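import Pool.Agent.Q27.VC.Main

/-!
# Trees whose edge stabilizers meet their virtual centralizers centrally: cylinders
-/

set_option autoImplicit false

namespace Q27.VC

open SimpleGraph
open Pool.Agent.Helper270.Tree
open Q182.Cyl (ClosedA Est InfOrd Est_smul CorF)
open Q182.Hv (KK mem_KK conj_KK)
open Q182.De (CylData st_data Est_data Est_le_data reduce KK_congr KK_sub)
open Subgroup (Commensurable)
open Subgroup.Commensurable (commensurator commensurator_mem_iff)
open scoped Pointwise commutatorElement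

set_option maxHeartbeats 1000000

variable {C : ∀ (G : Type) [Group G], Prop} {G V : Type} [Group G] [MulAction G V]
  {T : SimpleGraph V}

/-- `E` is the stabilizer of the edge, `K` the group of the elements of the subgroup `R` which
centralize a subgroup of finite index of `E`: the group of the elements of `K` which fix the edge is
finite, or the elements of `K` which fix `v` commute with them -/
def CenV (G : Type) {V : Type} [Group G] [MulAction G V] (R : Subgroup G) (v w : V) : Prop :=
  Finite ↥(Est G v w ⊓ (KK (Est G v w) ⊓ R)) ∨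
    ∀ a ∈ Est G v w ⊓ (KK (Est G v w) ⊓ R), ∀ g ∈ KK (Est G v w) ⊓ R, g • v = v → g * a = a * g

/-- the commensurator of the stabilizer `E` of the edge has a homomorphism to a group in `C` whose
kernel consists of elements which centralize a subgroup of finite index of `E` -/
def ComG (C : ∀ (G : Type) [Group G], Prop) (G : Type) {V : Type} [Group G] [MulAction G V]
    (v w : V) : Prop :=
  ∃ (D : Type) (_ : Group D) (ρ : commensurator (Est G v w) →* D), C D ∧
    ∀ g, ρ g = 1 → (g : G) ∈ KK (Est G v w)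

/-- `E` is the stabilizer of the edge: a subgroup of finite index of `E` consists of elements of `R`
which centralize a subgroup of finite index of `E`, and the group of the elements of the stabilizer
of `v` which commensurate `E` has a homomorphism to a group in `C` whose kernel are the elements
which centralize a subgroup of finite index of `E` -/
def ComL (C : ∀ (G : Type) [Group G], Prop) (G : Type) {V : Type} [Group G] [MulAction G V]
    (R : Subgroup G) (v w : V) : Prop :=
  (KK (Est G v w) ⊓ R).relIndex (Est G v w) ≠ 0 ∧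
    ∃ (Q : Type) (_ : Group Q) (ρ : ↥(MulAction.stabilizer G v ⊓ commensurator (Est G v w)) →* Q),
      C Q ∧ ∀ g, ρ g = 1 ↔ (g : G) ∈ KK (Est G v w)

omit [MulAction G V] in
theorem fin_comm {A B K : Subgroup G} (h : Commensurable A B) (hA : Finite ↥(A ⊓ K)) :
    Finite ↥(B ⊓ K) := by
  refine Q182.Cyl.finite_of_index (K := A ⊓ (B ⊓ K)) inf_le_right ?_ ?_
  · rw [Subgroup.inf_relIndex_right]
    exact fun h0 => h.1 (Subgroup.relIndex_eq_zero_of_le_right inf_le_left h0)
  · exact Finite.of_injective _ (Subgroup.inclusion_injective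
      (inf_le_inf_left A inf_le_right : A ⊓ (B ⊓ K) ≤ A ⊓ K))

/-- **the theorem** -/
theorem main (hC : ClosedA C) (hmet : ∀ (G : Type) [Group G], derivedSeries G 2 = ⊥ → C G)
    (hT : TreeAct G T) (hcf : CorF G T) (hst : ∀ v : V, C (MulAction.stabilizer G v))
    {D₀ : Type} [Group D₀] (ρ₀ : G →* D₀) (hD₀ : C D₀)
    (hcen : ∀ v w : V, T.Adj v w → Infinite (Est G v w) → CenV G ρ₀.ker v w)
    (hcom : ∀ v w : V, T.Adj v w → Infinite (Est G v w) → ComG C G v w ∨ ComL C G ρ₀.ker v w) :
    C G := by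
  refine reduce hC hT hcf hst ?_
  intro v w hvw hinf M Y act hD
  have hinfY : ∀ x y : Y, (T.induce Y).Adj x y → Infinite (Est G x.1 y.1) := fun x y h =>
    Q182.Cyl.infinite_of_le inf_le_right (Q182.Cyl.infinite_inf (hD.com x y h) hinf)
  have hKK : ∀ x y : Y, (T.induce Y).Adj x y → KK (Est G x.1 y.1) = KK (Est G v w) :=
    fun x y h => (KK_congr (hD.com x y h)).symm
  have hcm : ∀ x y : Y, (T.induce Y).Adj x y → M ≤ commensurator (Est G x.1 y.1) := by
    intro x y h k hk
    rw [← Subgroup.Commensurable.eq (hD.com x y h), commensurator_mem_iff]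
    exact (hD.mem _).1 hk
  have hsx : ∀ (k : M) (x : Y), k • x = x ↔ (k : G) • x.1 = x.1 := by
    intro k x
    rw [← hD.smul]
    exact ⟨fun h => by rw [h], fun h => Subtype.ext h⟩
  let K : Subgroup M := (KK (Est G v w) ⊓ ρ₀.ker).subgroupOf M
  have hKn : K.Normal := by
    constructor
    intro k hk g
    have hk' : (k : G) ∈ KK (Est G v w) ⊓ ρ₀.ker := hk
    show ((g * k * g⁻¹ : M) : G) ∈ KK (Est G v w) ⊓ ρ₀.ker
    rw [Subgroup.coe_mul, Subgroup.coe_mul, Subgroup.coe_inv]
    exact ⟨conj_KK ((hD.mem (g : G)).1 g.2) hk'.1, Subgroup.Normal.conj_mem inferInstance _ hk'.2 _⟩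
  have hstM := st_data hD hC hst
  by_cases hfin : Finite ↥(Est G v w ⊓ (KK (Est G v w) ⊓ ρ₀.ker))
  · -- finite intersection
    have hG : ComG C G v w := by
      rcases hcom v w hvw hinf with h | h
      · exact h
      · exfalso
        have h1 : Finite (Est G v w) := by
          refine Q182.Cyl.finite_of_index (K := Est G v w ⊓ (KK (Est G v w) ⊓ ρ₀.ker)) inf_le_left
            ?_ hfin
          rw [Subgroup.inf_relIndex_left]
          exact h.1
        exact not_finite_iff_infinite.2 hinf h1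
    obtain ⟨D, _, ρ, hCD, hρ⟩ := hG
    have hle : M ≤ commensurator (Est G v w) := by
      intro k hk
      rw [commensurator_mem_iff]
      exact (hD.mem _).1 hk
    refine Q182.Fk.main hC ((ρ.comp (Subgroup.inclusion hle)).prod (ρ₀.comp M.subtype))
      (hC.base.base.prod _ _ hCD hD₀) hD.tree ?_ hstM
    intro x y hxy
    have h1 : Finite ↥(Est G x.1 y.1 ⊓ (KK (Est G v w) ⊓ ρ₀.ker)) := fin_comm (hD.com x y hxy) hfin
    refine Set.Finite.subset ((Set.toFinite ((Est G x.1 y.1 ⊓ (KK (Est G v w) ⊓ ρ₀.ker) :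
      Subgroup G) : Set G)).preimage (f := (Subtype.val : M → G)) Subtype.val_injective.injOn) ?_
    rintro g ⟨hgx, hgy, hg⟩
    have hg1 : ρ (Subgroup.inclusion hle g) = 1 := congrArg Prod.fst hg
    have hg2 : ρ₀ (g : G) = 1 := congrArg Prod.snd hg
    have h5 : (g : G) ∈ Est G x.1 y.1 ⊓ (KK (Est G v w) ⊓ ρ₀.ker) :=
      Subgroup.mem_inf.2 ⟨Subgroup.mem_inf.2 ⟨(hsx g x).1 hgx, (hsx g y).1 hgy⟩,
        Subgroup.mem_inf.2 ⟨hρ (Subgroup.inclusion hle g) hg1, MonoidHom.mem_ker.2 hg2⟩⟩
    exact h5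
  · -- central intersection
    have hcent : Cent (T.induce Y) K := by
      intro x y hxy s hs hsx' hsy g hg hgx
      have h1 := hcen x.1 y.1 hxy (hinfY x y hxy)
      unfold CenV at h1
      rw [hKK x y hxy] at h1
      rcases h1 with h1 | h1
      · exact absurd (fin_comm (hD.com x y hxy).symm h1) hfin
      · exact Subtype.ext (h1 s ⟨⟨(hsx s x).1 hsx', (hsx s y).1 hsy⟩, hs⟩ g hg
          ((hsx g x).1 hgx))
    by_cases hglob : ∃ x y : Y, (T.induce Y).Adj x y ∧ ComG C G x.1 y.1
    · obtain ⟨x, y, hxy, D, _, ρ, hCD, hρ⟩ := hglob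
      refine Q182.Rc.main hC hmet hD.tree
        ((ρ.comp (Subgroup.inclusion (hcm x y hxy))).prod (ρ₀.comp M.subtype))
        (hC.base.base.prod _ _ hCD hD₀) ?_ hstM
      have hf : ∀ k : M, ((ρ.comp (Subgroup.inclusion (hcm x y hxy))).prod
          (ρ₀.comp M.subtype)) k = 1 → k ∈ K := by
        intro k hk
        have hk1 : ρ (Subgroup.inclusion (hcm x y hxy) k) = 1 := congrArg Prod.fst hk
        have hk2 : ρ₀ (k : G) = 1 := congrArg Prod.snd hk
        have h1 := hρ _ hk1
        rw [hKK x y hxy] at h1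
        exact ⟨h1, hk2⟩
      intro x' y' hxy' s hs hsx' hsy g hg hgx
      exact hcent x' y' hxy' s (hf s hs) hsx' hsy g (hf g hg) hgx
    · have hloc : ∀ x y : Y, (T.induce Y).Adj x y → ComL C G ρ₀.ker x.1 y.1 := by
        intro x y hxy
        rcases hcom x.1 y.1 hxy (hinfY x y hxy) with h | h
        · exact absurd ⟨x, y, hxy, h⟩ hglob
        · exact h
      refine local_main hC hmet hD.tree hstM hcent ?_ ?_
      · intro x y hxy
        have h1 := (hloc x y hxy).1
        rw [hKK x y hxy] at h1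
        rw [Est_data hD, Subgroup.relIndex_subgroupOf (Est_le_data hD hxy)]
        exact h1
      · intro x
        obtain ⟨y, hxy⟩ := hD.nb x
        obtain ⟨_, Q, _, ρ, hQ, hρ⟩ := hloc x y hxy
        have hSG : ∀ k : MulAction.stabilizer M x, ((k : M) : G) ∈
            MulAction.stabilizer G x.1 ⊓ commensurator (Est G x.1 y.1) :=
          fun k => ⟨(hsx k.1 x).1 k.2, hcm x y hxy k.1.2⟩
        refine ⟨Q × D₀, inferInstance, (ρ.comp (MonoidHom.mk' (fun k : MulAction.stabilizer M x =>
          (⟨((k : M) : G), hSG k⟩ : ↥(MulAction.stabilizer G x.1 ⊓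
            commensurator (Est G x.1 y.1)))) (fun _ _ => rfl))).prod
              ((ρ₀.comp M.subtype).comp (MulAction.stabilizer M x).subtype),
          hC.base.base.prod _ _ hQ hD₀, ?_⟩
        intro g
        have h1 := hρ ⟨((g : M) : G), hSG g⟩
        rw [hKK x y hxy] at h1
        constructor
        · intro h
          have h2 : ρ ⟨((g : M) : G), hSG g⟩ = 1 := congrArg Prod.fst h
          have h3 : ρ₀ ((g : M) : G) = 1 := congrArg Prod.snd h
          exact ⟨h1.1 h2, h3⟩
        · rintro ⟨h2, h3⟩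
          exact Prod.ext (h1.2 h2) h3

/-- a group of elements fixing `v` is power-commutative -/
def PC (G : Type) {V : Type} [Group G] [MulAction G V] (R : Subgroup G) (v : V) : Prop :=
  ∀ a ∈ R, ∀ b ∈ R, a • v = v → b • v = v → ∀ n : ℕ, 0 < n → a ^ n * b = b * a ^ n → a * b = b * a

theorem PC.cen {R : Subgroup G} {v : V} (h : PC G R v) (w : V) : CenV G R v w := by
  right
  rintro a ⟨ha, _, haR⟩ g ⟨hg, hgR⟩ hgv
  obtain ⟨n, hn, _, h1⟩ := Subgroup.exists_pow_mem_of_relIndex_ne_zero (mem_KK.1 hg) ha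
  have h2 := (Subgroup.mem_inf.1 h1).1
  rw [Subgroup.mem_centralizer_iff] at h2
  exact (h a haR g hgR ha.1 hgv n hn (h2 g rfl).symm).symm

/-- edge stabilizers of finite rank -/
theorem comG_of_GL (hGL : ∀ n : ℕ, C (Matrix.GeneralLinearGroup (Fin n) ℚ)) {v w : V}
    (h1 : ∃ (n : ℕ) (H : Subgroup G) (f : H →* Multiplicative (Fin n → ℚ)), H ≤ Est G v w ∧
      H.relIndex (Est G v w) ≠ 0 ∧ Function.Injective f) : ComG C G v w := by
  obtain ⟨n, H, f, hHE, hHi, hf⟩ := h1
  have hab : ∀ a ∈ H, ∀ b ∈ H, a * b = b * a := by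
    intro a ha b hb
    have h3 : (⟨a, ha⟩ : H) * ⟨b, hb⟩ = ⟨b, hb⟩ * ⟨a, ha⟩ := hf (by rw [map_mul, map_mul, mul_comm])
    exact congrArg Subtype.val h3
  have htf : ∀ a ∈ H, a ≠ 1 → InfOrd a := by
    intro a ha hne k hk h3
    apply hne
    have h4 : f ⟨a, ha⟩ ^ k = 1 := by
      rw [← map_pow, ← map_one f]
      congr 1
      exact Subtype.ext h3
    have h5 : k • Multiplicative.toAdd (f ⟨a, ha⟩) = 0 := h4
    have h6 : Multiplicative.toAdd (f ⟨a, ha⟩) = 0 := by
      rcases smul_eq_zero.1 h5 with h | h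
      · omega
      · exact h
    have h7 : f ⟨a, ha⟩ = f 1 := by
      rw [map_one]
      exact h6
    exact congrArg Subtype.val (hf h7)
  obtain ⟨d, ρ, hρ⟩ := Q182.De.exists_GL f hf hab htf
  have hcomH : Commensurable H (Est G v w) :=
    ⟨hHi, by rw [Subgroup.relIndex_eq_one.2 hHE]; exact one_ne_zero⟩
  have hle : commensurator (Est G v w) ≤ commensurator H := by
    rw [Subgroup.Commensurable.eq hcomH]
  have hfin : ∀ g : commensurator (Est G v w), (ρ.comp (Subgroup.inclusion hle)) g = 1 →
      (g : G) ∈ KK (Est G v w) := by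
    intro g hg
    rw [← KK_congr hcomH]
    exact (hρ (Subgroup.inclusion hle g)).1 hg
  exact ⟨Matrix.GeneralLinearGroup (Fin d) ℚ, inferInstance, ρ.comp (Subgroup.inclusion hle),
    hGL d, hfin⟩

end Q27.VC
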