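import Pool.Agent.Q182.DeAbF
import Pool.Agent.Q182.RcAb

/-!
# Trees whose edge stabilizers meet their virtual centralizers centrally
-/

set_option autoImplicit false

namespace Q27.VC

open SimpleGraph
open Pool.Agent.Helper270.Tree
open Q182.Cyl (ClosedA Est InfOrd Est_smul CorF)
open Q182.Cen (Ell Orb mk mk_eq mk_smul exists_mk QG qAct treeAct_QG exists_lift edge_orbit adj_mk)
open Q182.Hv (KK mem_KK conj_KK)
open Q182.De (CylData st_data Est_data Est_le_data reduce KK_congr KK_sub)
open Subgroup (Commensurable)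
open Subgroup.Commensurable (commensurator commensurator_mem_iff)
open scoped Pointwise commutatorElement

variable {C : ∀ (G : Type) [Group G], Prop} {G V : Type} [Group G] [MulAction G V]
  {T : SimpleGraph V}

/-- the elements of `K` which fix an edge commute with the elements of `K` which fix a vertex of the
edge -/
def Cent (T : SimpleGraph V) (K : Subgroup G) : Prop :=
  ∀ v w : V, T.Adj v w → ∀ s ∈ K, s • v = v → s • w = w → ∀ g ∈ K, g • v = v → g * s = s * g

/-- subgroups with a homomorphism to a group in `C` with kernel in `K` -/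
theorem sub_mem (hC : ClosedA C) (hmet : ∀ (G : Type) [Group G], derivedSeries G 2 = ⊥ → C G)
    (hT : TreeAct G T) (hst : ∀ v : V, C (MulAction.stabilizer G v)) {K : Subgroup G}
    (hK : Cent T K) (P : Subgroup G) {D : Type} [Group D] (f : P →* D) (hD : C D)
    (hf : ∀ p, f p = 1 → (p : G) ∈ K) : C P := by
  have hTP : TreeAct P T := ⟨hT.isTree, fun g v w h => hT.adj g v w h,
    fun g v w h => hT.noInv g v w h⟩
  refine Q182.Rc.main hC hmet hTP f hD ?_ (fun x => Q182.Cen.st_mem hC.base.base P x (hst x))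
  intro v w hvw s hs hsv hsw g hg hgv
  exact Subtype.ext (hK v w hvw s (hf s hs) hsv hsw g (hf g hg) hgv)

/-- the subgroup generated by the elements of `K` which fix a vertex -/
def NK (V : Type) [MulAction G V] (K : Subgroup G) : Subgroup G :=
  Subgroup.closure {m | m ∈ K ∧ ∃ v : V, m • v = v}

theorem NK_le (K : Subgroup G) : NK V K ≤ K := (Subgroup.closure_le _).2 fun _ h => h.1

theorem mem_NK {K : Subgroup G} {m : G} (h : m ∈ K) {v : V} (hv : m • v = v) : m ∈ NK V K :=
  Subgroup.subset_closure ⟨h, v, hv⟩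

theorem ell_NK (K : Subgroup G) : Ell V (NK V K) := by
  refine (Subgroup.closure_le _).2 ?_
  rintro m ⟨hm, v, hv⟩
  exact Subgroup.subset_closure ⟨mem_NK hm hv, v, hv⟩

theorem normal_NK (K : Subgroup G) [hK : K.Normal] : (NK V K).Normal := by
  constructor
  intro m hm g
  have h1 : g * m * g⁻¹ ∈ (NK V K).map (MulAut.conj g).toMonoidHom := ⟨m, hm, rfl⟩
  rw [NK, MonoidHom.map_closure] at h1
  refine Subgroup.closure_mono ?_ h1
  rintro _ ⟨k, ⟨hk, v, hv⟩, rfl⟩
  refine ⟨hK.conj_mem k hk g, g • v, ?_⟩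
  show (g * k * g⁻¹) • g • v = g • v
  rw [mul_smul, mul_smul, inv_smul_smul, hv]

/-- subgroups which are abelian modulo `K` -/
theorem cyc_mem (hC : ClosedA C) (hmet : ∀ (G : Type) [Group G], derivedSeries G 2 = ⊥ → C G)
    (hT : TreeAct G T) (hst : ∀ v : V, C (MulAction.stabilizer G v)) {K : Subgroup G} [K.Normal]
    (hK : Cent T K) (P : Subgroup G) (hP : ⁅P, P⁆ ≤ K) : C P := by
  refine sub_mem hC hmet hT hst hK P (QuotientGroup.mk' (K.subgroupOf P)) ?_
    (fun p hp => (QuotientGroup.eq_one_iff p).1 hp)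
  apply hmet
  have h1 : derivedSeries P 1 ≤ K.subgroupOf P := by
    intro x hx
    have h2 : (x : G) ∈ (derivedSeries P 1).map P.subtype := ⟨x, hx, rfl⟩
    have h3 : derivedSeries P 1 = ⁅(⊤ : Subgroup P), (⊤ : Subgroup P)⁆ := derivedSeries_one P
    rw [h3, Subgroup.map_commutator] at h2
    apply hP
    refine Subgroup.commutator_mono ?_ ?_ h2
    · rintro _ ⟨n, _, rfl⟩
      exact n.2
    · rintro _ ⟨n, _, rfl⟩
      exact n.2
  have h2 : derivedSeries (P ⧸ K.subgroupOf P) 1 = ⊥ := by
    rw [← map_derivedSeries_eq (QuotientGroup.mk'_surjective _) 1, eq_bot_iff]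
    rintro _ ⟨d, hd, rfl⟩
    rw [Subgroup.mem_bot]
    exact (QuotientGroup.eq_one_iff _).2 (h1 hd)
  rw [derivedSeries_succ, h2]
  exact Subgroup.commutator_bot_left _

/-- **local version** -/
theorem local_main (hC : ClosedA C) (hmet : ∀ (G : Type) [Group G], derivedSeries G 2 = ⊥ → C G)
    (hT : TreeAct G T) (hst : ∀ v : V, C (MulAction.stabilizer G v)) {K : Subgroup G}
    [hKn : K.Normal] (hK : Cent T K) (hfi : ∀ v w : V, T.Adj v w → K.relIndex (Est G v w) ≠ 0)
    (hQ : ∀ v : V, ∃ (Q : Type) (_ : Group Q) (ρ : MulAction.stabilizer G v →* Q), C Q ∧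
      ∀ g, ρ g = 1 ↔ (g : G) ∈ K) : C G := by
  let N := NK V K
  have hN : N.Normal := normal_NK K
  let _ := qAct V N
  have hA : TreeAct (G ⧸ N) (QG T N) := treeAct_QG N hT (ell_NK K)
  have hsm : ∀ (g : G) (x : V), (QuotientGroup.mk' N g) • mk N x = mk N (g • x) := fun g x => rfl
  have hsurj := QuotientGroup.mk'_surjective N
  have hdec : ∀ (g : G) (v : V), mk N (g • v) = mk N v → ∃ n ∈ N, ∃ h : G, h • v = v ∧
      g = n * h := by
    intro g v hg
    obtain ⟨n, hn, h1⟩ := mk_eq.1 hg
    exact ⟨n, hn, n⁻¹ * g, by rw [mul_smul, ← h1, inv_smul_smul], by group⟩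
  -- the stabilizers of the edges of the quotient
  have hedge : ∀ p q : Orb V N, (QG T N).Adj p q →
      {f : G ⧸ N | f • p = p ∧ f • q = q}.Finite := by
    rintro _ _ ⟨hpq, a, b, hab, rfl, rfl⟩
    have h1 : Finite ((Est G a b).map (QuotientGroup.mk' N)) := by
      apply Nat.finite_of_card_ne_zero
      rw [← Subgroup.relIndex_ker, QuotientGroup.ker_mk']
      intro h0
      have h2 : (K ⊓ Est G a b).relIndex (Est G a b) ≠ 0 := by
        rw [Subgroup.inf_relIndex_right]
        exact hfi a b hab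
      refine h2 (Subgroup.relIndex_eq_zero_of_le_left ?_ h0)
      intro x hx
      obtain ⟨h3, h4⟩ := Subgroup.mem_inf.1 hx
      exact mem_NK h3 h4.1
    refine (Set.toFinite (((Est G a b).map (QuotientGroup.mk' N) :
      Subgroup (G ⧸ N)) : Set (G ⧸ N))).subset ?_
    rintro f ⟨hf, hf'⟩
    obtain ⟨g, rfl⟩ := hsurj f
    rw [hsm] at hf hf'
    obtain ⟨n, hn, h, hh, rfl⟩ := hdec g a hf
    have h5 : mk N (h • b) = mk N b := by
      rw [← hf', mul_smul, mk_smul hn]
    obtain ⟨m, hm, h6⟩ := mk_eq.1 h5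
    have h7 : T.Adj a (h • b) := by
      have := hT.adj h a b hab
      rwa [hh] at this
    obtain ⟨k, hk, hk1, hk2⟩ := edge_orbit hT (ell_NK K) hab h7 hm h6
    refine ⟨k⁻¹ * h, ⟨?_, ?_⟩, ?_⟩
    · show (k⁻¹ * h) • a = a
      rw [mul_smul, hh, inv_smul_eq_iff, hk1]
    · show (k⁻¹ * h) • b = b
      rw [mul_smul, ← hk2, inv_smul_smul]
    · have h8 : QuotientGroup.mk' N n = 1 := (QuotientGroup.eq_one_iff _).2 hn
      have h9 : QuotientGroup.mk' N k = 1 := (QuotientGroup.eq_one_iff _).2 hk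
      rw [map_mul, map_mul, map_inv, h8, h9, inv_one]
  -- the preimages of the stabilizers of the vertices
  have hvt : ∀ v : V, C ↥(MulAction.stabilizer G v ⊔ N) := by
    intro v
    obtain ⟨Q, _, ρ, hCQ, hρ⟩ := hQ v
    let S : Subgroup G := MulAction.stabilizer G v
    have hker : K.subgroupOf S = ρ.ker := by
      ext k
      rw [Subgroup.mem_subgroupOf, MonoidHom.mem_ker]
      exact (hρ k).symm
    have h1 : C (S ⧸ K.subgroupOf S) := by
      let e1 := QuotientGroup.quotientMulEquivOfEq hker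
      exact hC.base.base.of_injective _ _ ((QuotientGroup.kerLift ρ).comp e1.toMonoidHom)
        ((QuotientGroup.kerLift_injective ρ).comp e1.injective) hCQ
    have h2 : C (↥(S ⊔ K) ⧸ K.subgroupOf (S ⊔ K)) := by
      let e := QuotientGroup.quotientInfEquivProdNormalQuotient S K
      exact hC.base.base.of_injective _ _ e.symm.toMonoidHom e.symm.injective h1
    have hle : MulAction.stabilizer G v ⊔ N ≤ S ⊔ K := sup_le_sup_left (NK_le K) _
    refine sub_mem hC hmet hT hst hK _
      ((QuotientGroup.mk' (K.subgroupOf (S ⊔ K))).comp (Subgroup.inclusion hle)) h2 ?_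
    intro p hp
    exact (QuotientGroup.eq_one_iff (Subgroup.inclusion hle p)).1 hp
  refine hC.acyl G (G ⧸ N) (Orb V N) (QuotientGroup.mk' N) (QG T N) 1 hsurj hA.isTree hA.adj
    hA.noInv ?_ ?_ ?_
  · intro p q hpq
    obtain ⟨r, h0, hn, hadj, hd, _⟩ := exists_geod hA.isTree p q
    have h1 := hadj 0 (by omega)
    refine (hedge _ _ h1).subset ?_
    rintro f ⟨hf1, hf2⟩
    refine ⟨by rw [h0]; exact hf1, ?_⟩
    refine hA.convex hf1 hf2 ?_
    have h3 := hd (0 + 1) (by omega)
    omega
  · intro p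
    obtain ⟨v, rfl⟩ := exists_mk p
    have h1 : (MulAction.stabilizer (G ⧸ N) (mk N v)).comap (QuotientGroup.mk' N) ≤
        MulAction.stabilizer G v ⊔ N := by
      intro g hg
      have hg' : (QuotientGroup.mk' N g) • mk N v = mk N v := hg
      rw [hsm] at hg'
      obtain ⟨n, hn, h, hh, rfl⟩ := hdec g v hg'
      rw [sup_comm]
      exact Subgroup.mul_mem_sup hn hh
    exact hC.base.base.of_injective _ _ (Subgroup.inclusion h1) (Subgroup.inclusion_injective h1)
      (hvt v)
  · rintro W ⟨c, hcW, hc⟩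
    refine Q182.Cyl.fi_mem hC.base.base (K := (Subgroup.zpowers c).comap (QuotientGroup.mk' N)) ?_ ?_
    · rw [Subgroup.relIndex_comap, Subgroup.map_comap_eq_self_of_surjective hsurj]
      exact hc
    · refine cyc_mem hC hmet hT hst hK _ ?_
      rw [Subgroup.commutator_le]
      rintro a ⟨i, hi⟩ b ⟨j, hj⟩
      refine NK_le (V := V) K ?_
      refine (QuotientGroup.eq_one_iff _).1 ?_
      show QuotientGroup.mk' N ⁅a, b⁆ = 1
      rw [map_commutatorElement, ← hi, ← hj, commutatorElement_eq_one_iff_commute]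
      exact (Commute.refl c).zpow_zpow i j

end Q27.VC
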